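import Pool.Agent.Work.MP_bd3ec3_nt.SP.Stmts

/-!
# MP_bd3ec3_nt, block SP, item BR: square roots in an interval
-/

set_option autoImplicit false

namespace Pool.Agent.Work.MP_bd3ec3_nt.SP

namespace IBR

/-- a residue class in an interval -/
theorem cnt (F : Finset ℤ) (q : ℕ) (u L : ℝ) (hq : 0 < q) (hL : 0 ≤ L)
    (h1 : ∀ b ∈ F, u ≤ b ∧ (b : ℝ) ≤ u + L) (h2 : ∀ b ∈ F, ∀ b' ∈ F, (q : ℤ) ∣ b - b') :
    (F.card : ℝ) ≤ L / q + 1 := by
  have hq0 : (0 : ℝ) < q := by exact_mod_cast hq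
  rcases F.eq_empty_or_nonempty with he | hne
  · rw [he, Finset.card_empty, Nat.cast_zero]
    positivity
  obtain ⟨b1, hb1⟩ : ∃ b1, b1 = F.min' hne := ⟨_, rfl⟩
  have hb1F : b1 ∈ F := by rw [hb1]; exact Finset.min'_mem F hne
  have hmin : ∀ b ∈ F, b1 ≤ b := fun b hb => by rw [hb1]; exact Finset.min'_le F b hb
  have hcard : F.card ≤ (Finset.range (⌊L / q⌋₊ + 1)).card := by
    refine Finset.card_le_card_of_injOn (fun b => ((b - b1) / q).toNat) ?_ ?_
    · intro b hb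
      have hb' : b ∈ F := hb
      obtain ⟨t, ht⟩ := h2 b hb' b1 hb1F
      have hdiv : (b - b1) / (q : ℤ) = t := by
        rw [ht]
        exact Int.mul_ediv_cancel_left _ (by exact_mod_cast hq.ne')
      have ht0 : 0 ≤ t := by
        have h3 : 0 ≤ (q : ℤ) * t := by
          rw [← ht]
          have := hmin b hb'
          omega
        exact nonneg_of_mul_nonneg_right h3 (by exact_mod_cast hq)
      show ((b - b1) / (q : ℤ)).toNat ∈ ((Finset.range (⌊L / q⌋₊ + 1) : Finset ℕ) : Set ℕ)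
      rw [Finset.mem_coe, Finset.mem_range, hdiv, Nat.lt_succ_iff]
      apply Nat.le_floor
      rw [le_div_iff₀ hq0]
      have h4 : ((t.toNat : ℕ) : ℝ) = (t : ℝ) := by
        have : ((t.toNat : ℕ) : ℤ) = t := Int.toNat_of_nonneg ht0
        exact_mod_cast this
      rw [h4]
      have h5 : (t : ℝ) * q = b - b1 := by
        have h6 : (b : ℤ) - b1 = t * q := by rw [ht]; ring
        exact_mod_cast h6.symm
      rw [h5]
      have h7 := (h1 b hb').2
      have h8 := (h1 b1 hb1F).1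
      linarith
    · intro b hb b' hb' hbb
      have hb2 : b ∈ F := hb
      have hb3 : b' ∈ F := hb'
      obtain ⟨t, ht⟩ := h2 b hb2 b1 hb1F
      obtain ⟨t', ht'⟩ := h2 b' hb3 b1 hb1F
      have hqz : (q : ℤ) ≠ 0 := by exact_mod_cast hq.ne'
      have hqz' : (0 : ℤ) < q := by exact_mod_cast hq
      have e1 : (b - b1) / (q : ℤ) = t := by
        rw [ht]; exact Int.mul_ediv_cancel_left _ hqz
      have e2 : (b' - b1) / (q : ℤ) = t' := by
        rw [ht']; exact Int.mul_ediv_cancel_left _ hqz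
      have n1 : 0 ≤ t := by
        have h3 : 0 ≤ (q : ℤ) * t := by
          rw [← ht]
          have := hmin b hb2
          omega
        exact nonneg_of_mul_nonneg_right h3 hqz'
      have n2 : 0 ≤ t' := by
        have h3 : 0 ≤ (q : ℤ) * t' := by
          rw [← ht']
          have := hmin b' hb3
          omega
        exact nonneg_of_mul_nonneg_right h3 hqz'
      have hbb' : ((b - b1) / (q : ℤ)).toNat = ((b' - b1) / (q : ℤ)).toNat := hbb
      rw [e1, e2] at hbb'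
      have e3 : t = t' := by omega
      have e4 : b - b1 = b' - b1 := by rw [ht, ht', e3]
      omega
  rw [Finset.card_range] at hcard
  have h9 : (F.card : ℝ) ≤ (⌊L / q⌋₊ : ℝ) + 1 := by exact_mod_cast hcard
  have h10 : (⌊L / q⌋₊ : ℝ) ≤ L / q := Nat.floor_le (by positivity)
  linarith

/-- the arithmetic: `n / gcd (b - b₀, n)` divides `b + b₀` -/
theorem dvd_add (n : ℕ) (hn : 0 < n) (b b0 : ℤ) (h : (n : ℤ) ∣ (b - b0) * (b + b0)) (g t : ℕ)
    (hg : Int.gcd (b - b0) n = g) (ht : n = g * t) : (g : ℤ) ∣ b - b0 ∧ (t : ℤ) ∣ b + b0 := by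
  have hgpos : 0 < Int.gcd (b - b0) n := Int.gcd_pos_of_ne_zero_right _ (by exact_mod_cast hn.ne')
  obtain ⟨s, r, hsr, h1, h2⟩ := Int.exists_gcd_one hgpos
  rw [hg] at h1 h2 hgpos
  have hgz : (g : ℤ) ≠ 0 := by exact_mod_cast hgpos.ne'
  refine ⟨⟨s, by rw [h1]; ring⟩, ?_⟩
  have hrt : r = t := by
    have h3 : r * (g : ℤ) = t * g := by
      rw [← h2, ht]
      push_cast
      ring
    exact mul_right_cancel₀ hgz h3
  rw [hrt] at hsr
  have h4 : (g : ℤ) * t ∣ (g : ℤ) * (s * (b + b0)) := by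
    have h5 : ((n : ℕ) : ℤ) = (g : ℤ) * t := by rw [ht]; push_cast; ring
    rw [← h5]
    have h6 : (g : ℤ) * (s * (b + b0)) = (b - b0) * (b + b0) := by rw [h1]; ring
    rw [h6]
    exact h
  have h7 : (t : ℤ) ∣ s * (b + b0) := (mul_dvd_mul_iff_left hgz).1 h4
  exact (Int.isCoprime_iff_gcd_eq_one.2 hsr).symm.dvd_of_dvd_mul_left h7

end IBR

theorem pr_BR : S_BR := by
  classical
  intro n c u L hn hc hL
  have hn0 : (0 : ℝ) < n := by exact_mod_cast hn
  obtain ⟨B, hB⟩ : ∃ B : Set ℤ, B = {b : ℤ | u ≤ b ∧ (b : ℝ) ≤ u + L ∧ (n : ℤ) ∣ b ^ 2 - c} :=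
    ⟨_, rfl⟩
  rw [← hB]
  have hfin : B.Finite := by
    refine (Set.finite_Icc (⌊u⌋) (⌈u + L⌉)).subset ?_
    intro b hb
    rw [hB] at hb
    obtain ⟨h1, h2, -⟩ := hb
    constructor
    · have h3 : (⌊u⌋ : ℝ) ≤ u := Int.floor_le u
      have : ((⌊u⌋ : ℤ) : ℝ) ≤ (b : ℝ) := h3.trans h1
      exact_mod_cast this
    · have h3 : u + L ≤ (⌈u + L⌉ : ℝ) := Int.le_ceil (u + L)
      have : (b : ℝ) ≤ ((⌈u + L⌉ : ℤ) : ℝ) := h2.trans h3
      exact_mod_cast this
  rw [Set.ncard_eq_toFinset_card B hfin]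
  obtain ⟨S, hS⟩ : ∃ S : Finset ℤ, S = hfin.toFinset := ⟨_, rfl⟩
  rw [← hS]
  have hmem : ∀ b, b ∈ S ↔ u ≤ b ∧ (b : ℝ) ≤ u + L ∧ (n : ℤ) ∣ b ^ 2 - c := by
    intro b
    rw [hS, Set.Finite.mem_toFinset, hB]
    rfl
  rcases S.eq_empty_or_nonempty with he | ⟨b0, hb0⟩
  · rw [he, Finset.card_empty, Nat.cast_zero]
    positivity
  obtain ⟨-, -, hd0⟩ := (hmem b0).1 hb0
  -- b₀ is coprime to n
  have hcop : IsCoprime b0 (n : ℤ) := by
    have h1 : IsCoprime (b0 ^ 2) (n : ℤ) := by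
      obtain ⟨k, hk⟩ := hd0
      have h2 : b0 ^ 2 = c + n * k := by rw [← hk]; ring
      rw [h2]
      exact hc.add_mul_left_left k
    exact (IsCoprime.pow_left_iff (by norm_num)).1 h1
  have hcard : S.card = ∑ g ∈ n.divisors, (S.filter fun b => Int.gcd (b - b0) n = g).card := by
    refine Finset.card_eq_sum_card_fiberwise (f := fun b => Int.gcd (b - b0) n) ?_
    intro b _
    show Int.gcd (b - b0) n ∈ ((n.divisors : Finset ℕ) : Set ℕ)
    rw [Finset.mem_coe, Nat.mem_divisors]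
    refine ⟨?_, hn.ne'⟩
    have h1 : ((Int.gcd (b - b0) n : ℕ) : ℤ) ∣ (n : ℤ) := Int.gcd_dvd_right _ _
    exact_mod_cast h1
  have hfib : ∀ g ∈ n.divisors,
      ((S.filter fun b => Int.gcd (b - b0) n = g).card : ℝ) ≤ 2 * L / n + 1 := by
    intro g hg
    obtain ⟨t, ht⟩ := Nat.dvd_of_mem_divisors hg
    rcases (S.filter fun b => Int.gcd (b - b0) n = g).eq_empty_or_nonempty with he | ⟨b, hb⟩
    · rw [he, Finset.card_empty, Nat.cast_zero]
      positivity
    have hprop : ∀ b ∈ S.filter (fun b => Int.gcd (b - b0) n = g),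
        (g : ℤ) ∣ b - b0 ∧ (t : ℤ) ∣ b + b0 := by
      intro b hb
      rw [Finset.mem_filter] at hb
      obtain ⟨hbS, hbg⟩ := hb
      refine IBR.dvd_add n hn b b0 ?_ g t hbg ht
      have h1 := ((hmem b).1 hbS).2.2
      have h2 : (b - b0) * (b + b0) = (b ^ 2 - c) - (b0 ^ 2 - c) := by ring
      rw [h2]
      exact dvd_sub h1 hd0
    -- the gcd of g and t divides 2
    have hd2 : Nat.gcd g t ∣ 2 := by
      obtain ⟨h1, h2⟩ := hprop b hb
      have h3 : ((Nat.gcd g t : ℕ) : ℤ) ∣ 2 * b0 := by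
        have h4 : ((Nat.gcd g t : ℕ) : ℤ) ∣ b - b0 :=
          (Int.natCast_dvd_natCast.2 (Nat.gcd_dvd_left g t)).trans h1
        have h5 : ((Nat.gcd g t : ℕ) : ℤ) ∣ b + b0 :=
          (Int.natCast_dvd_natCast.2 (Nat.gcd_dvd_right g t)).trans h2
        have h6 : 2 * b0 = (b + b0) - (b - b0) := by ring
        rw [h6]
        exact dvd_sub h5 h4
      have h7 : ((Nat.gcd g t : ℕ) : ℤ) ∣ (n : ℤ) := by
        apply Int.natCast_dvd_natCast.2
        rw [ht]
        exact (Nat.gcd_dvd_left g t).trans (Dvd.intro _ rfl)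
      have h8 : IsCoprime ((Nat.gcd g t : ℕ) : ℤ) b0 := (hcop.of_isCoprime_of_dvd_right h7).symm
      have h9 : ((Nat.gcd g t : ℕ) : ℤ) ∣ 2 := h8.dvd_of_dvd_mul_right h3
      exact_mod_cast h9
    have hle2 : Nat.gcd g t ≤ 2 := Nat.le_of_dvd (by norm_num) hd2
    have hq : n ≤ 2 * Nat.lcm g t := by
      calc n = g * t := ht
        _ = Nat.gcd g t * Nat.lcm g t := (Nat.gcd_mul_lcm g t).symm
        _ ≤ 2 * Nat.lcm g t := Nat.mul_le_mul_right _ hle2
    have hq0 : 0 < Nat.lcm g t := by omega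
    have h1 := IBR.cnt (S.filter fun b => Int.gcd (b - b0) n = g) (Nat.lcm g t) u L hq0 hL
      (fun b hb => by
        rw [Finset.mem_filter] at hb
        exact ⟨((hmem b).1 hb.1).1, ((hmem b).1 hb.1).2.1⟩)
      (fun b hb b' hb' => by
        obtain ⟨x1, x2⟩ := hprop b hb
        obtain ⟨y1, y2⟩ := hprop b' hb'
        have z1 : (g : ℤ) ∣ b - b' := by
          have : b - b' = (b - b0) - (b' - b0) := by ring
          rw [this]
          exact dvd_sub x1 y1
        have z2 : (t : ℤ) ∣ b - b' := by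
          have : b - b' = (b + b0) - (b' + b0) := by ring
          rw [this]
          exact dvd_sub x2 y2
        exact Int.natCast_dvd.2 (Nat.lcm_dvd (Int.natCast_dvd.1 z1) (Int.natCast_dvd.1 z2)))
    refine h1.trans ?_
    have hq1 : (0 : ℝ) < (Nat.lcm g t : ℝ) := by exact_mod_cast hq0
    have hq2 : (n : ℝ) ≤ 2 * (Nat.lcm g t : ℝ) := by exact_mod_cast hq
    have h2 : L / (Nat.lcm g t : ℝ) ≤ 2 * L / n := by
      rw [div_le_div_iff₀ hq1 hn0]
      nlinarith
    linarith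
  rw [hcard]
  push_cast
  calc ∑ g ∈ n.divisors, ((S.filter fun b => Int.gcd (b - b0) n = g).card : ℝ)
      ≤ ∑ g ∈ n.divisors, (2 * L / n + 1) := Finset.sum_le_sum hfib
    _ = (n.divisors.card : ℝ) * (2 * L / n + 1) := by
        rw [Finset.sum_const, nsmul_eq_mul]

end Pool.Agent.Work.MP_bd3ec3_nt.SP
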