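import Pool.Agent.Work.MP_bd3ec3_nt.SP.Stmts

/-!
# MP_bd3ec3_nt, block SP, item E1: abscissas of moderate size
-/

set_option autoImplicit false

namespace Pool.Agent.Work.MP_bd3ec3_nt.SP

namespace IE1

theorem finE (X : ℝ) (e : ℕ) (a : ℤ) : (E X e a).Finite := by
  refine Set.Finite.subset ((Set.finite_Icc (-⌈X ^ 2⌉) ⌈X ^ 2⌉).prod (Set.finite_Icc (-⌈X ^ 3⌉) ⌈X ^ 3⌉)) ?_
  rintro ⟨A, B⟩ ⟨h1, h2, -⟩
  simp only at h1 h2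
  rw [abs_le] at h1 h2
  have c1 : X ^ 2 ≤ (⌈X ^ 2⌉ : ℝ) := Int.le_ceil _
  have c2 : X ^ 3 ≤ (⌈X ^ 3⌉ : ℝ) := Int.le_ceil _
  refine ⟨⟨?_, ?_⟩, ⟨?_, ?_⟩⟩
  · have : ((-⌈X ^ 2⌉ : ℤ) : ℝ) ≤ (A : ℝ) := by push_cast; linarith [h1.1]
    exact_mod_cast this
  · have : ((A : ℤ) : ℝ) ≤ ((⌈X ^ 2⌉ : ℤ) : ℝ) := by linarith [h1.2]
    exact_mod_cast this
  · have : ((-⌈X ^ 3⌉ : ℤ) : ℝ) ≤ (B : ℝ) := by push_cast; linarith [h2.1]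
    exact_mod_cast this
  · have : ((B : ℤ) : ℝ) ≤ ((⌈X ^ 3⌉ : ℤ) : ℝ) := by linarith [h2.2]
    exact_mod_cast this

theorem finT (u v : ℝ) (P : ℤ → Prop) : {b : ℤ | u ≤ b ∧ (b : ℝ) ≤ v ∧ P b}.Finite := by
  refine Set.Finite.subset (Set.finite_Icc ⌈u⌉ ⌊v⌋) ?_
  rintro b ⟨h1, h2, -⟩
  exact ⟨Int.ceil_le.2 h1, Int.le_floor.2 h2⟩

theorem sq_Y (X : ℝ) (hX : 1 ≤ X) : (X ^ ((3 : ℝ) / 2)) ^ 2 = X ^ 3 := by
  rw [← Real.rpow_natCast (X ^ ((3 : ℝ) / 2)) 2, ← Real.rpow_mul (by linarith)]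
  rw [← Real.rpow_natCast X 3]
  norm_num

/-- the size of the ordinate -/
theorem bound (X A B a e b : ℝ) (hX : 1 ≤ X) (he : 0 < e) (hA : |A| ≤ X ^ 2) (hB : |B| ≤ X ^ 3)
    (ha : |a| ≤ 4 * e ^ 2 * X) (hb : b ^ 2 = a ^ 3 + A * a * e ^ 4 + B * e ^ 6) :
    |b| ≤ 9 * e ^ 3 * X ^ ((3 : ℝ) / 2) := by
  have hY0 : 0 ≤ X ^ ((3 : ℝ) / 2) := Real.rpow_nonneg (by linarith) _
  have hX0 : 0 ≤ X := by linarith
  have h1 : a ^ 3 ≤ (4 * e ^ 2 * X) ^ 3 := by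
    calc a ^ 3 ≤ |a ^ 3| := le_abs_self _
      _ = |a| ^ 3 := abs_pow a 3
      _ ≤ (4 * e ^ 2 * X) ^ 3 := pow_le_pow_left₀ (abs_nonneg a) ha 3
  have h2 : A * a * e ^ 4 ≤ X ^ 2 * (4 * e ^ 2 * X) * e ^ 4 := by
    apply mul_le_mul_of_nonneg_right _ (by positivity)
    calc A * a ≤ |A * a| := le_abs_self _
      _ = |A| * |a| := abs_mul A a
      _ ≤ X ^ 2 * (4 * e ^ 2 * X) := mul_le_mul hA ha (abs_nonneg a) (by positivity)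
  have h3 : B * e ^ 6 ≤ X ^ 3 * e ^ 6 :=
    mul_le_mul_of_nonneg_right ((le_abs_self B).trans hB) (by positivity)
  have h4 : b ^ 2 ≤ (9 * e ^ 3 * X ^ ((3 : ℝ) / 2)) ^ 2 := by
    rw [mul_pow, sq_Y X hX, hb]
    have h5 : 0 ≤ X ^ 3 * e ^ 6 := by positivity
    have e1 : (4 * e ^ 2 * X) ^ 3 = 64 * (X ^ 3 * e ^ 6) := by ring
    have e2 : X ^ 2 * (4 * e ^ 2 * X) * e ^ 4 = 4 * (X ^ 3 * e ^ 6) := by ring
    have e3 : (9 * e ^ 3) ^ 2 * X ^ 3 = 81 * (X ^ 3 * e ^ 6) := by ring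
    rw [e3]
    rw [e1] at h1
    rw [e2] at h2
    linarith
  exact abs_le_of_sq_le_sq h4 (by positivity)

end IE1

theorem pr_E1 : S_E1 := by
  intro hBR hLN hCT X e a hX he hcop ha
  have hE : (0 : ℝ) < e := by exact_mod_cast he
  have hY0 : 0 ≤ X ^ ((3 : ℝ) / 2) := Real.rpow_nonneg (by linarith) _
  obtain ⟨Y, hY⟩ : ∃ Y : ℝ, Y = X ^ ((3 : ℝ) / 2) := ⟨_, rfl⟩
  rw [← hY] at hY0 ⊢
  have hn : 0 < e ^ 4 := pow_pos he 4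
  have hc : IsCoprime (a ^ 3) ((e ^ 4 : ℕ) : ℤ) := by
    push_cast
    exact hcop.pow
  have hL : 0 ≤ 18 * (e : ℝ) ^ 3 * Y := by positivity
  have hb := hBR (e ^ 4) (a ^ 3) (-(9 * (e : ℝ) ^ 3 * Y)) (18 * (e : ℝ) ^ 3 * Y) hn hc hL
  have hfin := IE1.finT (-(9 * (e : ℝ) ^ 3 * Y)) (-(9 * (e : ℝ) ^ 3 * Y) + 18 * (e : ℝ) ^ 3 * Y)
    (fun b => ((e ^ 4 : ℕ) : ℤ) ∣ b ^ 2 - a ^ 3)
  rw [Set.ncard_eq_toFinset_card _ hfin] at hb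
  have hct := hCT hLN e a (E X e a) hfin.toFinset (fun _ => -X ^ 2) (2 * X ^ 2) he hcop (by positivity)
    (IE1.finE X e a) (by
      rintro ⟨A, B⟩ ⟨h1, h2, b, h3⟩
      simp only at h1 h2 h3 ⊢
      have h4 : (b : ℝ) ^ 2 = (a : ℝ) ^ 3 + (A : ℝ) * a * (e : ℝ) ^ 4 + (B : ℝ) * (e : ℝ) ^ 6 := by
        exact_mod_cast h3
      have h5 := IE1.bound X A B a e b hX hE h1 h2 ha h4
      rw [← hY, abs_le] at h5
      rw [abs_le] at h1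
      refine ⟨b, ?_, h3, h1.1, by linarith [h1.2]⟩
      rw [Set.Finite.mem_toFinset]
      refine ⟨h5.1, by linarith [h5.2], ?_⟩
      refine ⟨A * a + B * (e : ℤ) ^ 2, ?_⟩
      rw [h3]
      push_cast
      ring)
  refine hct.trans ?_
  apply mul_le_mul_of_nonneg_right _ (by positivity)
  refine hb.trans (le_of_eq ?_)
  congr 2
  push_cast
  field_simp
  ring

end Pool.Agent.Work.MP_bd3ec3_nt.SP
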