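import Pool.Agent.Work.MP_bd3ec3_nt.SP.Stmts

/-!
# MP_bd3ec3_nt, block SP, item E2: large abscissas
-/

set_option autoImplicit false

namespace Pool.Agent.Work.MP_bd3ec3_nt.SP

open Filter Topology

namespace IE2

theorem fin_int (u v : ℝ) (P : ℤ → Prop) : {b : ℤ | u ≤ (b : ℝ) ∧ (b : ℝ) ≤ v ∧ P b}.Finite := by
  refine (Set.finite_Icc ⌈u⌉ ⌊v⌋).subset ?_
  rintro b ⟨h1, h2, _⟩
  exact ⟨Int.ceil_le.mpr h1, Int.le_floor.mpr h2⟩

theorem fin_E (X : ℝ) (e : ℕ) (a : ℤ) : (E X e a).Finite := by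
  refine ((Set.finite_Icc ⌈-(X ^ 2)⌉ ⌊X ^ 2⌋).prod (Set.finite_Icc ⌈-(X ^ 3)⌉ ⌊X ^ 3⌋)).subset ?_
  rintro p ⟨h1, h2, _⟩
  rw [abs_le] at h1 h2
  exact ⟨⟨Int.ceil_le.mpr h1.1, Int.le_floor.mpr h1.2⟩, ⟨Int.ceil_le.mpr h2.1, Int.le_floor.mpr h2.2⟩⟩

/-- `|b|` is near `r √r` -/
theorem near (r s t q : ℝ) (hs : 0 < s) (hr : 4 * s < r) (ht : |t| ≤ s ^ 2 * r + s ^ 3) (hq : 0 ≤ q)
    (h : q ^ 2 = r ^ 3 + t) : |q - r * √r| ≤ 2 * s ^ 2 / √r := by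
  have hr0 : 0 < r := by linarith
  have hw : 0 < √r := Real.sqrt_pos.mpr hr0
  have hw2 : √r ^ 2 = r := Real.sq_sqrt hr0.le
  have h1 : (r * √r) ^ 2 = r ^ 3 := by rw [mul_pow, hw2]; ring
  have h2 : (q - r * √r) * (q + r * √r) = t := by
    have : (q - r * √r) * (q + r * √r) = q ^ 2 - (r * √r) ^ 2 := by ring
    rw [this, h1, h]
    ring
  have h3 : |q - r * √r| * (q + r * √r) = |t| := by
    rw [← h2, abs_mul, abs_of_nonneg (show 0 ≤ q + r * √r by positivity)]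
  have h4 : |t| ≤ 2 * s ^ 2 * r := by
    have : s ^ 3 ≤ s ^ 2 * r := by
      have h5 : s ^ 3 = s ^ 2 * s := by ring
      rw [h5]
      exact mul_le_mul_of_nonneg_left (by linarith) (by positivity)
    linarith
  rw [le_div_iff₀ hw]
  have h5 : |q - r * √r| * (r * √r) ≤ 2 * s ^ 2 * r := by
    calc |q - r * √r| * (r * √r) ≤ |q - r * √r| * (q + r * √r) :=
          mul_le_mul_of_nonneg_left (by linarith) (abs_nonneg _)
      _ = |t| := h3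
      _ ≤ 2 * s ^ 2 * r := h4
  have h6 : r * (|q - r * √r| * √r) ≤ r * (2 * s ^ 2) := by
    calc r * (|q - r * √r| * √r) = |q - r * √r| * (r * √r) := by ring
      _ ≤ 2 * s ^ 2 * r := h5
      _ = r * (2 * s ^ 2) := by ring
  exact le_of_mul_le_mul_left h6 hr0

theorem t_bound (X r A B f : ℝ) (hf : 0 ≤ f) (hA : |A| ≤ X ^ 2) (hB : |B| ≤ X ^ 3) :
    |A * r * f ^ 2 + B * f ^ 3| ≤ (f * X) ^ 2 * |r| + (f * X) ^ 3 := by
  have h1 : |A * r * f ^ 2| ≤ (f * X) ^ 2 * |r| := by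
    rw [abs_mul, abs_mul, abs_of_nonneg (show 0 ≤ f ^ 2 by positivity)]
    calc |A| * |r| * f ^ 2 ≤ X ^ 2 * |r| * f ^ 2 := by gcongr
      _ = (f * X) ^ 2 * |r| := by ring
  have h2 : |B * f ^ 3| ≤ (f * X) ^ 3 := by
    rw [abs_mul, abs_of_nonneg (show 0 ≤ f ^ 3 by positivity)]
    calc |B| * f ^ 3 ≤ X ^ 3 * f ^ 3 := by gcongr
      _ = (f * X) ^ 3 := by ring
  exact (abs_add_le _ _).trans (add_le_add h1 h2)

end IE2

theorem pr_E2 : S_E2 := by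
  classical
  intro hBR hLN hCT X e a hX he hco hbig
  have hX0 : 0 < X := by linarith
  have he1 : (1 : ℝ) ≤ (e : ℝ) := by exact_mod_cast he
  have he0 : (0 : ℝ) < (e : ℝ) := by linarith
  set f : ℝ := (e : ℝ) ^ 2 with hf
  have hf0 : 0 < f := by positivity
  set s : ℝ := f * X with hs
  have hs0 : 0 < s := by positivity
  have hbig' : 4 * s < |(a : ℝ)| := by rw [hs]; linarith
  have hdiv : (0 : ℝ) ≤ ((e ^ 4).divisors.card : ℝ) := Nat.cast_nonneg _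
  -- the real form of the equation
  have hreal : ∀ p ∈ E X e a, ∀ b : ℤ, b ^ 2 = a ^ 3 + p.1 * a * (e : ℤ) ^ 4 + p.2 * (e : ℤ) ^ 6 →
      (b : ℝ) ^ 2 = (a : ℝ) ^ 3 + ((p.1 : ℝ) * a * f ^ 2 + (p.2 : ℝ) * f ^ 3) := by
    intro p _ b hb
    have h1 : ((b ^ 2 : ℤ) : ℝ) = ((a ^ 3 + p.1 * a * (e : ℤ) ^ 4 + p.2 * (e : ℤ) ^ 6 : ℤ) : ℝ) := by
      rw [hb]
    push_cast at h1
    rw [h1, hf]
    ring
  have hneg : a < 0 → E X e a = ∅ := by
    intro ha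
    rw [Set.eq_empty_iff_forall_notMem]
    intro p hp
    obtain ⟨h1, h2, b, hb⟩ := id hp
    have h3 := hreal p hp b hb
    have h4 := IE2.t_bound X (a : ℝ) p.1 p.2 f hf0.le h1 h2
    have ha' : (a : ℝ) < 0 := by exact_mod_cast ha
    rw [abs_of_neg ha'] at hbig' h4
    have h5 := (abs_le.mp h4).2
    have h6 : (0 : ℝ) ≤ (b : ℝ) ^ 2 := sq_nonneg _
    obtain ⟨r, hr⟩ : ∃ r : ℝ, r = -(a : ℝ) := ⟨_, rfl⟩
    have hra : (a : ℝ) = -r := by linarith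
    rw [hra] at h3 h5 hbig'
    rw [neg_neg] at hbig' h5
    have hr0 : 0 < r := by linarith
    have h7 : (-r) ^ 3 = -(r ^ 3) := by ring
    rw [← hs] at h5
    have h8 : 16 * s ^ 2 * r < r ^ 3 := by
      have h11 : (4 * s) ^ 2 < r ^ 2 := pow_lt_pow_left₀ hbig' (by positivity) two_ne_zero
      have h12 : (4 * s) ^ 2 * r < r ^ 2 * r := mul_lt_mul_of_pos_right h11 hr0
      have h13 : (4 * s) ^ 2 * r = 16 * s ^ 2 * r := by ring
      have h14 : r ^ 2 * r = r ^ 3 := by ring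
      rw [h13, h14] at h12
      exact h12
    have h9 : s ^ 3 ≤ s ^ 2 * r := by
      have h5 : s ^ 3 = s ^ 2 * s := by ring
      rw [h5]
      exact mul_le_mul_of_nonneg_left (by linarith) (by positivity)
    have h10 : 0 < s ^ 2 * r := by positivity
    rw [h7] at h3
    linarith
  refine ⟨hneg, ?_⟩
  rcases lt_or_ge a 0 with ha | ha
  · rw [hneg ha, Set.ncard_empty]
    push_cast
    positivity
  have ha0 : (0 : ℝ) ≤ (a : ℝ) := by exact_mod_cast ha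
  rw [abs_of_nonneg ha0] at hbig' ⊢
  obtain ⟨r, hr⟩ : ∃ r : ℝ, r = (a : ℝ) := ⟨_, rfl⟩
  rw [← hr] at hbig' ⊢
  have hr0 : 0 < r := by linarith
  have hw : 0 < √r := Real.sqrt_pos.mpr hr0
  set δ : ℝ := 2 * s ^ 2 / √r with hδ
  have hδ0 : 0 ≤ δ := by positivity
  have hco' : IsCoprime (a ^ 3) (((e ^ 4 : ℕ) : ℕ) : ℤ) := by
    push_cast
    exact hco.pow
  have hcount : (2 : ℝ) * (2 * δ) / ((e ^ 4 : ℕ) : ℝ) = 8 * X ^ 2 / √r := by
    rw [hδ, hs, hf]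
    push_cast
    field_simp
    ring
  have hT1 := hBR (e ^ 4) (a ^ 3) (r * √r - δ) (2 * δ) (by positivity) hco' (by positivity)
  have hT2 := hBR (e ^ 4) (a ^ 3) (-(r * √r) - δ) (2 * δ) (by positivity) hco' (by positivity)
  rw [hcount] at hT1 hT2
  set S1 : Set ℤ := {b : ℤ | r * √r - δ ≤ (b : ℝ) ∧ (b : ℝ) ≤ r * √r - δ + 2 * δ ∧
    ((e ^ 4 : ℕ) : ℤ) ∣ b ^ 2 - a ^ 3} with hS1
  set S2 : Set ℤ := {b : ℤ | -(r * √r) - δ ≤ (b : ℝ) ∧ (b : ℝ) ≤ -(r * √r) - δ + 2 * δ ∧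
    ((e ^ 4 : ℕ) : ℤ) ∣ b ^ 2 - a ^ 3} with hS2
  have hf1 : S1.Finite := IE2.fin_int _ _ _
  have hf2 : S2.Finite := IE2.fin_int _ _ _
  rw [Set.ncard_eq_toFinset_card S1 hf1] at hT1
  rw [Set.ncard_eq_toFinset_card S2 hf2] at hT2
  have hcard : (((hf1.toFinset ∪ hf2.toFinset).card : ℕ) : ℝ) ≤
      2 * ((e ^ 4).divisors.card : ℝ) * (8 * X ^ 2 / √r + 1) := by
    have h1 : (((hf1.toFinset ∪ hf2.toFinset).card : ℕ) : ℝ) ≤
        (hf1.toFinset.card : ℝ) + (hf2.toFinset.card : ℝ) := by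
      exact_mod_cast Finset.card_union_le _ _
    linarith
  have hkey := hCT hLN e a (E X e a) (hf1.toFinset ∪ hf2.toFinset)
    (fun b => ((b : ℝ) ^ 2 - r ^ 3 - X ^ 3 * f ^ 3) / (r * f ^ 2)) (2 * X ^ 3 * f / r) he hco
    (by positivity) (IE2.fin_E X e a) ?_
  · have h1 : 2 * X ^ 3 * f / r / (e : ℝ) ^ 2 + 1 = 2 * X ^ 3 / r + 1 := by
      rw [← hf]
      field_simp
    rw [h1] at hkey
    exact hkey.trans (mul_le_mul_of_nonneg_right hcard (by positivity))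
  · intro p hp
    obtain ⟨h1, h2, b, hb⟩ := id hp
    have h3 := hreal p hp b hb
    have h4 := IE2.t_bound X (a : ℝ) p.1 p.2 f hf0.le h1 h2
    rw [← hr] at h3 h4
    rw [abs_of_pos hr0, ← hs] at h4
    have hdvd : ((e ^ 4 : ℕ) : ℤ) ∣ b ^ 2 - a ^ 3 := by
      refine ⟨p.1 * a + p.2 * (e : ℤ) ^ 2, ?_⟩
      rw [hb]
      push_cast
      ring
    refine ⟨b, ?_, hb, ?_, ?_⟩
    · rw [Finset.mem_union, Set.Finite.mem_toFinset, Set.Finite.mem_toFinset]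
      rcases le_total 0 b with hb0 | hb0
      · left
        have hb0' : (0 : ℝ) ≤ (b : ℝ) := by exact_mod_cast hb0
        have h5 := abs_le.mp (IE2.near r s _ (b : ℝ) hs0 hbig' h4 hb0' h3)
        exact ⟨by linarith, by linarith, hdvd⟩
      · right
        have hb0' : (0 : ℝ) ≤ -(b : ℝ) := by
          have : (b : ℝ) ≤ 0 := by exact_mod_cast hb0
          linarith
        have h5 := abs_le.mp (IE2.near r s _ (-(b : ℝ)) hs0 hbig' h4 hb0' (by rw [neg_sq]; exact h3))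
        exact ⟨by linarith, by linarith, hdvd⟩
    · have h6 := (abs_le.mp h2).2
      show ((b : ℝ) ^ 2 - r ^ 3 - X ^ 3 * f ^ 3) / (r * f ^ 2) ≤ (p.1 : ℝ)
      rw [div_le_iff₀ (by positivity), h3]
      have h7 : (p.2 : ℝ) * f ^ 3 ≤ X ^ 3 * f ^ 3 := mul_le_mul_of_nonneg_right h6 (by positivity)
      nlinarith [h7]
    · have h6 := (abs_le.mp h2).1
      show (p.1 : ℝ) ≤ ((b : ℝ) ^ 2 - r ^ 3 - X ^ 3 * f ^ 3) / (r * f ^ 2) + 2 * X ^ 3 * f / r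
      have h8 : 2 * X ^ 3 * f / r = (2 * X ^ 3 * f ^ 3) / (r * f ^ 2) := by
        field_simp
      rw [h8, ← add_div, le_div_iff₀ (by positivity), h3]
      have h7 : -(X ^ 3) * f ^ 3 ≤ (p.2 : ℝ) * f ^ 3 := mul_le_mul_of_nonneg_right h6 (by positivity)
      nlinarith [h7]

end Pool.Agent.Work.MP_bd3ec3_nt.SP
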