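import Pool.Agent.Work.MP_bd3ec3_nt.SP.Stmts

/-!
# MP_bd3ec3_nt, block SP, item LN: a linear congruence in an interval
-/

set_option autoImplicit false

namespace Pool.Agent.Work.MP_bd3ec3_nt.SP

/-- item LN -/
theorem pr_LN : S_LN := by
  intro m a c v K hm hco hK
  have hm' : (0 : ℝ) < m := by exact_mod_cast hm
  have hKm : 0 ≤ K / m := div_nonneg hK hm'.le
  have h1 : ∀ A ∈ {A : ℤ | v ≤ A ∧ (A : ℝ) ≤ v + K ∧ (m : ℤ) ∣ A * a - c},
      ⌊((A : ℝ) - v) / m⌋ ∈ ((Finset.Icc (0 : ℤ) ⌊K / m⌋ : Finset ℤ) : Set ℤ) := by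
    rintro A ⟨e1, e2, -⟩
    rw [Finset.mem_coe, Finset.mem_Icc]
    constructor
    · exact Int.floor_nonneg.2 (div_nonneg (by linarith) hm'.le)
    · exact Int.floor_le_floor (div_le_div_of_nonneg_right (by linarith) hm'.le)
  have h2 : Set.InjOn (fun A : ℤ => ⌊((A : ℝ) - v) / m⌋)
      {A : ℤ | v ≤ A ∧ (A : ℝ) ≤ v + K ∧ (m : ℤ) ∣ A * a - c} := by
    rintro A ⟨-, -, e1⟩ B ⟨-, -, e2⟩ hAB
    have hAB' : ⌊((A : ℝ) - v) / m⌋ = ⌊((B : ℝ) - v) / m⌋ := hAB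
    have e3 : (m : ℤ) ∣ (A - B) * a := by
      have e4 := dvd_sub e1 e2
      have e5 : A * a - c - (B * a - c) = (A - B) * a := by ring
      rwa [e5] at e4
    have e6 : (m : ℤ) ∣ A - B := hco.symm.dvd_of_dvd_mul_right e3
    have f1 := Int.floor_le (((A : ℝ) - v) / m)
    have f2 := Int.lt_floor_add_one (((A : ℝ) - v) / m)
    have f3 := Int.floor_le (((B : ℝ) - v) / m)
    have f4 := Int.lt_floor_add_one (((B : ℝ) - v) / m)
    rw [hAB'] at f1 f2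
    have e7 : |(A : ℝ) - B| < m := by
      have g1 : ((A : ℝ) - v) / m - ((B : ℝ) - v) / m = ((A : ℝ) - B) / m := by ring
      have g2 : |((A : ℝ) - B) / m| < 1 := by
        rw [← g1, abs_lt]
        constructor <;> linarith
      rw [abs_div, abs_of_pos hm', div_lt_one hm'] at g2
      exact g2
    have e8 : |A - B| < (m : ℤ) := by
      have e9 : ((|A - B| : ℤ) : ℝ) < ((m : ℤ) : ℝ) := by
        push_cast
        exact e7
      exact_mod_cast e9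
    have e10 : A - B = 0 := Int.eq_zero_of_abs_lt_dvd e6 e8
    omega
  have h3 := Set.ncard_le_ncard_of_injOn _ h1 h2 (Finset.finite_toSet _)
  rw [Set.ncard_coe_finset, Int.card_Icc] at h3
  have h4 : (0 : ℤ) ≤ ⌊K / m⌋ := Int.floor_nonneg.2 hKm
  have h5 : (((⌊K / m⌋ + 1 - 0).toNat : ℕ) : ℝ) = (⌊K / m⌋ : ℝ) + 1 := by
    have h6 : (((⌊K / m⌋ + 1 - 0).toNat : ℕ) : ℤ) = ⌊K / m⌋ + 1 := by
      rw [Int.toNat_of_nonneg (by omega)]
      ring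
    have h7 : ((((⌊K / m⌋ + 1 - 0).toNat : ℕ) : ℤ) : ℝ) = ((⌊K / m⌋ + 1 : ℤ) : ℝ) := by rw [h6]
    push_cast at h7 ⊢
    exact h7
  have h8 : (({A : ℤ | v ≤ A ∧ (A : ℝ) ≤ v + K ∧ (m : ℤ) ∣ A * a - c}.ncard : ℕ) : ℝ) ≤
      (((⌊K / m⌋ + 1 - 0).toNat : ℕ) : ℝ) := by exact_mod_cast h3
  rw [h5] at h8
  have h9 := Int.floor_le (K / (m : ℝ))
  linarith

end Pool.Agent.Work.MP_bd3ec3_nt.SP
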