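import Pool.Agent.Work.MP_bd3ec3_nt.SP.Stmts

/-! Item [MN] of block SP: the number of the curves with a small point. -/

set_option autoImplicit false

namespace Pool.Agent.Work.MP_bd3ec3_nt.SP

namespace IMN

/-- the curves with a small point lie in `TT`. -/
theorem sub (hRT : S_RT) (κ H : ℝ) (hH : 1 ≤ H) :
    {p : ℤ × ℤ | ht p.1 p.2 ≤ H ∧ Sm κ H p.1 p.2} ⊆ TT (H ^ ((1 : ℝ) / 6)) (H ^ κ) := by
  rintro ⟨A, B⟩ ⟨hht, x, y, hxy, hnum, hden⟩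
  have hH0 : (0 : ℝ) < H := by linarith
  set X : ℝ := H ^ ((1 : ℝ) / 6) with hX
  have hX0 : 0 < X := Real.rpow_pos_of_pos hH0 _
  have hX6 : X ^ 6 = H := by
    rw [hX, ← Real.rpow_natCast, ← Real.rpow_mul hH0.le]
    norm_num
  simp only at hxy hht hnum hden
  obtain ⟨e, b, he, hde, hco, hb⟩ := hRT A B x y hxy
  unfold ht at hht
  have h1 : |4 * (A : ℝ) ^ 3| ≤ H := le_trans (le_max_left _ _) hht
  have h2 : |27 * (B : ℝ) ^ 2| ≤ H := le_trans (le_max_right _ _) hht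
  have hA : |(A : ℝ)| ≤ X ^ 2 := by
    rw [abs_mul, abs_pow] at h1
    have h3 : |(A : ℝ)| ^ 3 ≤ (X ^ 2) ^ 3 := by
      have h4 : (X ^ 2) ^ 3 = H := by rw [← hX6]; ring
      rw [h4]
      have h5 : |(4 : ℝ)| = 4 := abs_of_pos (by norm_num)
      rw [h5] at h1
      have h6 : 0 ≤ |(A : ℝ)| ^ 3 := by positivity
      linarith
    exact le_of_pow_le_pow_left₀ (by norm_num) (by positivity) h3
  have hB : |(B : ℝ)| ≤ X ^ 3 := by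
    have h5 : |27 * (B : ℝ) ^ 2| = 27 * |(B : ℝ)| ^ 2 := by
      rw [abs_of_nonneg (by positivity), sq_abs]
    rw [h5] at h2
    have h3 : |(B : ℝ)| ^ 2 ≤ (X ^ 3) ^ 2 := by
      have h4 : (X ^ 3) ^ 2 = H := by rw [← hX6]; ring
      rw [h4]
      have h6 : 0 ≤ |(B : ℝ)| ^ 2 := by positivity
      linarith
    exact le_of_pow_le_pow_left₀ (by norm_num) (by positivity) h3
  have h7 : ((x.den : ℕ) : ℝ) = (e : ℝ) ^ 2 := by rw [hde]; push_cast; ring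
  rw [h7] at hden
  exact ⟨e, he, hden, x.num, hco, hnum, hA, hB, b, hb⟩

/-- `TT` is finite. -/
theorem fin (X M : ℝ) : (TT X M).Finite := by
  refine ((Set.finite_Icc (-⌈X ^ 2⌉) ⌈X ^ 2⌉).prod (Set.finite_Icc (-⌈X ^ 3⌉) ⌈X ^ 3⌉)).subset ?_
  rintro ⟨A, B⟩ ⟨e, -, -, a, -, -, hA, hB, -⟩
  simp only at hA hB
  have h1 := abs_le.1 hA
  have h2 := abs_le.1 hB
  have c1 : X ^ 2 ≤ ⌈X ^ 2⌉ := Int.le_ceil _
  have c2 : X ^ 3 ≤ ⌈X ^ 3⌉ := Int.le_ceil _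
  refine ⟨⟨?_, ?_⟩, ⟨?_, ?_⟩⟩
  · have : ((-⌈X ^ 2⌉ : ℤ) : ℝ) ≤ (A : ℝ) := by push_cast; linarith [h1.1]
    exact_mod_cast this
  · have : (A : ℝ) ≤ ((⌈X ^ 2⌉ : ℤ) : ℝ) := by linarith [h1.2]
    exact_mod_cast this
  · have : ((-⌈X ^ 3⌉ : ℤ) : ℝ) ≤ (B : ℝ) := by push_cast; linarith [h2.1]
    exact_mod_cast this
  · have : (B : ℝ) ≤ ((⌈X ^ 3⌉ : ℤ) : ℝ) := by linarith [h2.2]
    exact_mod_cast this

end IMN

open IMN in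
theorem pr_MN : S_MN := by
  intro hSE hRT κ hκ
  set δ : ℝ := min (1 / 8) ((13 / 4 - 6 * κ) / 2) with hδ
  have hδ0 : 0 < δ := lt_min (by norm_num) (by linarith)
  have hδ1 : δ ≤ 1 / 8 := min_le_left _ _
  have hδ2 : δ ≤ (13 / 4 - 6 * κ) / 2 := min_le_right _ _
  obtain ⟨C, hC, hC2⟩ := hSE δ hδ0
  refine ⟨δ / 6, by positivity, 2 * C, by positivity, ?_⟩
  intro H hH
  have hH0 : (0 : ℝ) < H := by linarith
  set X : ℝ := H ^ ((1 : ℝ) / 6) with hX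
  have hX0 : 0 < X := Real.rpow_pos_of_pos hH0 _
  have hX1 : 1 ≤ X := Real.one_le_rpow hH (by norm_num)
  have hM : H ^ κ = X ^ (6 * κ) := by
    rw [hX, ← Real.rpow_mul hH0.le]
    congr 1
    ring
  have hM0 : 0 ≤ H ^ κ := (Real.rpow_pos_of_pos hH0 _).le
  have hM1 : H ^ κ ≤ X ^ ((13 : ℝ) / 4) := by
    rw [hM]
    exact Real.rpow_le_rpow_of_exponent_le hX1 (by linarith)
  have h1 := hC2 X (H ^ κ) hX1 hM0 hM1
  have h2 : (({p : ℤ × ℤ | ht p.1 p.2 ≤ H ∧ Sm κ H p.1 p.2}.ncard : ℕ) : ℝ) ≤ ((TT X (H ^ κ)).ncard : ℝ) := by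
    exact_mod_cast Set.ncard_le_ncard (sub hRT κ H hH) (fin X (H ^ κ))
  have h3 : X ^ δ * X ^ ((9 : ℝ) / 2) ≤ X ^ ((19 : ℝ) / 4 - δ) := by
    rw [← Real.rpow_add hX0]
    exact Real.rpow_le_rpow_of_exponent_le hX1 (by linarith)
  have h4 : X ^ δ * (X ^ ((3 : ℝ) / 2) * H ^ κ) ≤ X ^ ((19 : ℝ) / 4 - δ) := by
    rw [hM, ← Real.rpow_add hX0, ← Real.rpow_add hX0]
    exact Real.rpow_le_rpow_of_exponent_le hX1 (by linarith)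
  have h5 : X ^ ((19 : ℝ) / 4 - δ) = H ^ ((19 : ℝ) / 24 - δ / 6) := by
    rw [hX, ← Real.rpow_mul hH0.le]
    congr 1
    ring
  calc (({p : ℤ × ℤ | ht p.1 p.2 ≤ H ∧ Sm κ H p.1 p.2}.ncard : ℕ) : ℝ)
      ≤ ((TT X (H ^ κ)).ncard : ℝ) := h2
    _ ≤ C * X ^ δ * (X ^ ((9 : ℝ) / 2) + X ^ ((3 : ℝ) / 2) * H ^ κ) := h1
    _ = C * (X ^ δ * X ^ ((9 : ℝ) / 2) + X ^ δ * (X ^ ((3 : ℝ) / 2) * H ^ κ)) := by ring
    _ ≤ C * (X ^ ((19 : ℝ) / 4 - δ) + X ^ ((19 : ℝ) / 4 - δ)) :=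
        mul_le_mul_of_nonneg_left (add_le_add h3 h4) hC.le
    _ = 2 * C * H ^ ((19 : ℝ) / 24 - δ / 6) := by rw [h5]; ring

end Pool.Agent.Work.MP_bd3ec3_nt.SP
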