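import Pool.Agent.Work.MP_bd3ec3_nt.SP.Stmts

/-!
# MP_bd3ec3_nt, block SP, item RT: rational points (helper57)
-/

set_option autoImplicit false

namespace Pool.Agent.Work.MP_bd3ec3_nt.SP

namespace IRT

theorem int_of_sq {z : ℚ} {k : ℤ} (h : z ^ 2 = (k : ℚ)) : ((z.num : ℤ) : ℚ) = z := by
  have h1 : (z ^ 2).den = 1 := by
    rw [h]
    exact Rat.den_intCast k
  rw [Rat.den_pow] at h1
  have h2 : z.den = 1 := by
    rcases Nat.pow_eq_one.1 h1 with h | h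
    · exact h
    · omega
  exact (Rat.den_eq_one_iff z).1 h2

theorem sq_left {a b c : ℤ} (ha : 0 ≤ a) (h : IsCoprime a b) (heq : a * b = c ^ 2) :
    ∃ a0 : ℤ, a = a0 ^ 2 := by
  obtain ⟨a0, h1 | h1⟩ := Int.sq_of_gcd_eq_one (Int.isCoprime_iff_gcd_eq_one.1 h) heq
  · exact ⟨a0, h1⟩
  · refine ⟨0, ?_⟩
    have h2 := sq_nonneg a0
    have h3 : a = 0 := le_antisymm (by linarith) ha
    rw [h3]
    norm_num

end IRT

open IRT in
theorem pr_RT : S_RT := by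
  intro A B x y h
  obtain ⟨d, hd⟩ : ∃ d : ℤ, d = (x.den : ℤ) := ⟨_, rfl⟩
  obtain ⟨m, hm⟩ : ∃ m : ℤ, m = x.num ^ 3 + A * x.num * d ^ 2 + B * d ^ 3 := ⟨_, rfl⟩
  have hdp : 0 < d := by
    rw [hd]
    exact_mod_cast x.den_pos
  have hx : (x.num : ℚ) = x * (x.den : ℚ) := (Rat.mul_den_eq_num x).symm
  have hz : (y * (x.den : ℚ) ^ 2) ^ 2 = ((d * m : ℤ) : ℚ) := by
    rw [hm, hd]
    push_cast
    rw [hx]
    linear_combination ((x.den : ℚ) ^ 4) * h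
  have hz2 := int_of_sq hz
  obtain ⟨Z, hZ⟩ : ∃ Z : ℤ, Z = (y * (x.den : ℚ) ^ 2).num := ⟨_, rfl⟩
  rw [← hZ] at hz2
  have hZ2 : d * m = Z ^ 2 := by
    rw [← hz2] at hz
    exact_mod_cast hz.symm
  have hcop : IsCoprime x.num d := by
    rw [hd]
    exact Int.isCoprime_iff_gcd_eq_one.2 x.reduced
  have hcop2 : IsCoprime d m := by
    have h1 : IsCoprime d (x.num ^ 3) := (hcop.pow_left).symm
    have h2 : m = x.num ^ 3 + d * (A * x.num * d + B * d ^ 2) := by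
      rw [hm]
      ring
    rw [h2]
    exact h1.add_mul_left_right _
  have hm0 : 0 ≤ m := by
    have h1 : 0 ≤ d * m := by
      rw [hZ2]
      exact sq_nonneg Z
    exact nonneg_of_mul_nonneg_right h1 hdp
  obtain ⟨e, he⟩ := sq_left hdp.le hcop2 hZ2
  obtain ⟨b, hb⟩ := sq_left hm0 hcop2.symm (by rw [mul_comm]; exact hZ2)
  have he0 : e ≠ 0 := by
    rintro rfl
    rw [he] at hdp
    norm_num at hdp
  have hee : ((e.natAbs : ℕ) : ℤ) ^ 2 = e ^ 2 := by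
    rw [Int.natCast_natAbs, sq_abs]
  refine ⟨e.natAbs, b, Int.natAbs_pos.2 he0, ?_, ?_, ?_⟩
  · have h1 : ((x.den : ℕ) : ℤ) = ((e.natAbs ^ 2 : ℕ) : ℤ) := by
      rw [Nat.cast_pow, hee, ← he, hd]
    exact_mod_cast h1
  · have h1 : IsCoprime x.num (((e.natAbs : ℕ) : ℤ) ^ 2) := by
      rw [hee, ← he]
      exact hcop
    exact (IsCoprime.pow_right_iff (by norm_num)).1 h1
  · have h4 : ((e.natAbs : ℕ) : ℤ) ^ 4 = d ^ 2 := by
      rw [he, ← hee]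
      ring
    have h6 : ((e.natAbs : ℕ) : ℤ) ^ 6 = d ^ 3 := by
      rw [he, ← hee]
      ring
    rw [h4, h6, ← hm, hb]

end Pool.Agent.Work.MP_bd3ec3_nt.SP
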