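import Pool.Agent.Work.MP_bd3ec3_nt.SP.Stmts

/-!
Block SP of MP_bd3ec3_nt, item SE: the sum over `e`.
-/

set_option autoImplicit false

namespace Pool.Agent.Work.MP_bd3ec3_nt.SP

open Filter Topology

namespace ISE

theorem ncard_biUnion_le {α : Type*} (t : Finset ℕ) (f : ℕ → Set α) :
    (⋃ i ∈ t, f i).ncard ≤ ∑ i ∈ t, (f i).ncard := by
  classical
  induction t using Finset.induction_on with
  | empty => simp
  | insert a s ha ih =>
    rw [Finset.set_biUnion_insert, Finset.sum_insert ha]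
    exact (Set.ncard_union_le _ _).trans (Nat.add_le_add_left ih _)

theorem final (C1 D u v a b : ℝ) (hC : 0 ≤ C1) (hD : 0 ≤ D) (ha : 0 ≤ a) (hb : 0 ≤ b) (hu : 0 ≤ u)
    (h1 : u * u ≤ v) (h2 : u ≤ v) :
    C1 * u * (700 * a * (D * u) + 369 * b) ≤ C1 * (700 * D + 369) * v * (a + b) := by
  have hv : 0 ≤ v := hu.trans h2
  have e1 : C1 * u * (700 * a * (D * u) + 369 * b) = C1 * (700 * D * a * (u * u) + 369 * b * u) := by ring
  have e2 : C1 * (700 * D + 369) * v * (a + b) =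
      C1 * (700 * D * a * v + 369 * b * v + (369 * a * v + 700 * D * b * v)) := by ring
  rw [e1, e2]
  apply mul_le_mul_of_nonneg_left _ hC
  have e3 : 700 * D * a * (u * u) ≤ 700 * D * a * v := mul_le_mul_of_nonneg_left h1 (by positivity)
  have e4 : 369 * b * u ≤ 369 * b * v := mul_le_mul_of_nonneg_left h2 (by positivity)
  have e5 : 0 ≤ 369 * a * v + 700 * D * b * v := by positivity
  linarith

end ISE

theorem pr_SE : S_SE := by
  intro h1 hDB ε hε
  obtain ⟨C1, hC1, hD⟩ := hDB (ε / 18) (by positivity)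
  refine ⟨C1 * (700 * (1 + 26 / ε) ^ 2 + 369), by positivity, ?_⟩
  intro X M hX hM0 hM
  have hX0 : 0 < X := by linarith
  by_cases hMX : M < X
  · have h2 : TT X M = ∅ := by
      ext p
      simp only [Set.mem_empty_iff_false, iff_false]
      rintro ⟨e, he, he2, _⟩
      have h3 : (1 : ℝ) ≤ e := by exact_mod_cast he
      have h4 : (1 : ℝ) ≤ (e : ℝ) ^ 2 := one_le_pow₀ h3
      have h5 : 1 * X ≤ (e : ℝ) ^ 2 * X := mul_le_mul_of_nonneg_right h4 hX0.le
      linarith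
    rw [h2, Set.ncard_empty, Nat.cast_zero]
    positivity
  · push Not at hMX
    have hM1 : 1 ≤ M := hX.trans hMX
    have hMpos : 0 < M := by linarith
    obtain ⟨Y, hY⟩ : ∃ Y : ℝ, Y = √(M / X) := ⟨_, rfl⟩
    have hY0 : 0 ≤ Y := by rw [hY]; exact Real.sqrt_nonneg _
    have hYsq : Y ^ 2 = M / X := by rw [hY]; exact Real.sq_sqrt (by positivity)
    have hY1 : 1 ≤ Y := by
      rw [hY, Real.one_le_sqrt, le_div_iff₀ hX0]
      linarith
    have hYM : Y ≤ M := by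
      have e1 : M / X ≤ M := div_le_self hM0 hX
      nlinarith
    have hmem : ∀ e : ℕ, e ∈ Finset.Icc 1 ⌊Y⌋₊ ↔ (0 < e ∧ (e : ℝ) ^ 2 * X ≤ M) := by
      intro e
      rw [Finset.mem_Icc, Nat.le_floor_iff hY0]
      have e1 : (e : ℝ) ≤ Y ↔ (e : ℝ) ^ 2 * X ≤ M := by
        rw [← le_div_iff₀ hX0, ← hYsq]
        exact (pow_le_pow_iff_left₀ (Nat.cast_nonneg e) hY0 two_ne_zero).symm
      rw [e1]
      exact Iff.rfl
    have hTT : TT X M = ⋃ e ∈ Finset.Icc 1 ⌊Y⌋₊, Fe X M e := by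
      ext p
      constructor
      · rintro ⟨e, he, he2, hp⟩
        exact Set.mem_iUnion₂.2 ⟨e, (hmem e).2 ⟨he, he2⟩, hp⟩
      · intro hp
        obtain ⟨e, he, hp⟩ := Set.mem_iUnion₂.1 hp
        exact ⟨e, ((hmem e).1 he).1, ((hmem e).1 he).2, hp⟩
    have hlog0 : 0 ≤ Real.log M := Real.log_nonneg hM1
    have hterm : ∀ e ∈ Finset.Icc 1 ⌊Y⌋₊, ((Fe X M e).ncard : ℝ) ≤
        C1 * X ^ (ε / 4) * (700 * X ^ ((9 : ℝ) / 2) * (1 + Real.log M) * ((e : ℝ))⁻¹ +
          (333 * X ^ ((5 : ℝ) / 2) * Y + 36 * X ^ 2 * √M)) := by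
      intro e he
      have he1 : (e : ℝ) ≤ Y := (Nat.le_floor_iff hY0).1 (Finset.mem_Icc.1 he).2
      obtain ⟨he0, he2⟩ := (hmem e).1 he
      have h2 := h1 X M e hX he0 he2 hM
      have h3 := hD (e ^ 4) (by positivity)
      have h4 : (((e ^ 4 : ℕ)) : ℝ) ≤ X ^ ((9 : ℝ) / 2) := by
        have e1 : (e : ℝ) ^ 2 ≤ X ^ ((9 : ℝ) / 4) := by
          have e2 : X ^ ((13 : ℝ) / 4) = X ^ ((9 : ℝ) / 4) * X := by
            rw [show (13 : ℝ) / 4 = 9 / 4 + 1 by norm_num, Real.rpow_add hX0, Real.rpow_one]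
          have e3 : (e : ℝ) ^ 2 * X ≤ X ^ ((9 : ℝ) / 4) * X := by
            rw [← e2]
            exact he2.trans hM
          exact le_of_mul_le_mul_right e3 hX0
        have e4 : X ^ ((9 : ℝ) / 2) = (X ^ ((9 : ℝ) / 4)) ^ 2 := by
          rw [← Real.rpow_natCast, ← Real.rpow_mul hX0.le]
          norm_num
        rw [e4]
        push_cast
        have e5 : (e : ℝ) ^ 4 = ((e : ℝ) ^ 2) ^ 2 := by ring
        rw [e5]
        exact pow_le_pow_left₀ (by positivity) e1 2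
      have h5 : (((e ^ 4 : ℕ)) : ℝ) ^ (ε / 18) ≤ X ^ (ε / 4) := by
        refine (Real.rpow_le_rpow (Nat.cast_nonneg _) h4 (by positivity)).trans (le_of_eq ?_)
        rw [← Real.rpow_mul hX0.le]
        congr 1
        ring
      have h6 : (((e ^ 4).divisors.card : ℕ) : ℝ) ≤ C1 * X ^ (ε / 4) :=
        h3.trans (mul_le_mul_of_nonneg_left h5 hC1.le)
      have h7 : 700 * X ^ ((9 : ℝ) / 2) * (1 + Real.log M) / e + 333 * e * X ^ ((5 : ℝ) / 2) +
          36 * X ^ 2 * √M ≤ 700 * X ^ ((9 : ℝ) / 2) * (1 + Real.log M) * ((e : ℝ))⁻¹ +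
          (333 * X ^ ((5 : ℝ) / 2) * Y + 36 * X ^ 2 * √M) := by
        have e1 : 333 * (e : ℝ) * X ^ ((5 : ℝ) / 2) ≤ 333 * X ^ ((5 : ℝ) / 2) * Y := by
          have : 333 * (e : ℝ) * X ^ ((5 : ℝ) / 2) = 333 * X ^ ((5 : ℝ) / 2) * e := by ring
          rw [this]
          exact mul_le_mul_of_nonneg_left he1 (by positivity)
        rw [div_eq_mul_inv]
        linarith
      have h8 : 0 ≤ 700 * X ^ ((9 : ℝ) / 2) * (1 + Real.log M) / e + 333 * e * X ^ ((5 : ℝ) / 2) +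
          36 * X ^ 2 * √M := by positivity
      calc ((Fe X M e).ncard : ℝ) ≤ _ := h2
        _ ≤ (C1 * X ^ (ε / 4)) * (700 * X ^ ((9 : ℝ) / 2) * (1 + Real.log M) / e +
            333 * e * X ^ ((5 : ℝ) / 2) + 36 * X ^ 2 * √M) := mul_le_mul_of_nonneg_right h6 h8
        _ ≤ _ := mul_le_mul_of_nonneg_left h7 (by positivity)
    have hcard : ((Finset.Icc 1 ⌊Y⌋₊).card : ℝ) ≤ Y := by
      rw [Nat.card_Icc, Nat.add_sub_cancel]
      exact Nat.floor_le hY0
    have hharm : ∑ e ∈ Finset.Icc 1 ⌊Y⌋₊, ((e : ℝ))⁻¹ ≤ 1 + Real.log M := by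
      have e1 := harmonic_floor_le_one_add_log Y hY1
      rw [harmonic_eq_sum_Icc] at e1
      push_cast at e1
      have e2 : Real.log Y ≤ Real.log M := Real.log_le_log (by linarith) hYM
      linarith
    have hsum : ((TT X M).ncard : ℝ) ≤ C1 * X ^ (ε / 4) * (700 * X ^ ((9 : ℝ) / 2) *
        (1 + Real.log M) * (1 + Real.log M) + Y * (333 * X ^ ((5 : ℝ) / 2) * Y + 36 * X ^ 2 * √M)) := by
      have e1 : ((TT X M).ncard : ℝ) ≤ ∑ e ∈ Finset.Icc 1 ⌊Y⌋₊, ((Fe X M e).ncard : ℝ) := by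
        rw [hTT]
        exact_mod_cast ISE.ncard_biUnion_le (Finset.Icc 1 ⌊Y⌋₊) (fun e => Fe X M e)
      refine e1.trans ((Finset.sum_le_sum hterm).trans ?_)
      rw [← Finset.mul_sum, Finset.sum_add_distrib, ← Finset.mul_sum, Finset.sum_const, nsmul_eq_mul]
      apply mul_le_mul_of_nonneg_left _ (by positivity)
      apply add_le_add
      · exact mul_le_mul_of_nonneg_left hharm (by positivity)
      · exact mul_le_mul_of_nonneg_right hcard (by positivity)
    have hA : Y * (333 * X ^ ((5 : ℝ) / 2) * Y + 36 * X ^ 2 * √M) = 369 * (X ^ ((3 : ℝ) / 2) * M) := by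
      have e1 : X ^ ((5 : ℝ) / 2) = X ^ ((3 : ℝ) / 2) * X := by
        rw [show (5 : ℝ) / 2 = 3 / 2 + 1 by norm_num, Real.rpow_add hX0, Real.rpow_one]
      have e2 : X ^ 2 = X ^ ((3 : ℝ) / 2) * √X := by
        rw [Real.sqrt_eq_rpow, ← Real.rpow_add hX0, ← Real.rpow_natCast]
        norm_num
      have e3 : √M * Y = M / √X := by
        rw [hY, Real.sqrt_div hM0, ← mul_div_assoc, Real.mul_self_sqrt hM0]
      have e4 : Y * (333 * X ^ ((5 : ℝ) / 2) * Y + 36 * X ^ 2 * √M) =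
          333 * X ^ ((5 : ℝ) / 2) * Y ^ 2 + 36 * X ^ 2 * (√M * Y) := by ring
      rw [e4, e3, hYsq, e1, e2]
      have e5 : √X ≠ 0 := (Real.sqrt_pos.2 hX0).ne'
      field_simp
      ring
    have hB : (1 + Real.log M) ≤ (1 + 26 / ε) * X ^ (ε / 8) := by
      have e1 : Real.log M ≤ 13 / 4 * Real.log X := by
        rw [← Real.log_rpow hX0]
        exact Real.log_le_log hMpos hM
      have e2 : Real.log X ≤ X ^ (ε / 8) / (ε / 8) := Real.log_le_rpow_div hX0.le (by positivity)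
      have e3 : 1 ≤ X ^ (ε / 8) := Real.one_le_rpow hX (by positivity)
      have e4 : 13 / 4 * (X ^ (ε / 8) / (ε / 8)) = 26 / ε * X ^ (ε / 8) := by
        field_simp
        ring
      nlinarith
    have hB2 : (1 + Real.log M) * (1 + Real.log M) ≤ (1 + 26 / ε) ^ 2 * X ^ (ε / 4) := by
      have e1 : (1 + Real.log M) * (1 + Real.log M) ≤
          ((1 + 26 / ε) * X ^ (ε / 8)) * ((1 + 26 / ε) * X ^ (ε / 8)) :=
        mul_le_mul hB hB (by linarith) (by positivity)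
      have e2 : X ^ (ε / 4) = X ^ (ε / 8) * X ^ (ε / 8) := by
        rw [← Real.rpow_add hX0]
        congr 1
        ring
      rw [e2]
      refine e1.trans (le_of_eq ?_)
      ring
    have hu1 : X ^ (ε / 4) * X ^ (ε / 4) ≤ X ^ ε := by
      rw [← Real.rpow_add hX0]
      exact Real.rpow_le_rpow_of_exponent_le hX (by linarith)
    have hu2 : X ^ (ε / 4) ≤ X ^ ε := Real.rpow_le_rpow_of_exponent_le hX (by linarith)
    have hF := ISE.final C1 ((1 + 26 / ε) ^ 2) (X ^ (ε / 4)) (X ^ ε) (X ^ ((9 : ℝ) / 2))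
      (X ^ ((3 : ℝ) / 2) * M) hC1.le (by positivity) (by positivity) (by positivity) (by positivity)
      hu1 hu2
    refine hsum.trans (le_trans ?_ hF)
    rw [hA]
    apply mul_le_mul_of_nonneg_left _ (by positivity)
    apply add_le_add _ le_rfl
    rw [mul_assoc]
    exact mul_le_mul_of_nonneg_left hB2 (by positivity)

end Pool.Agent.Work.MP_bd3ec3_nt.SP
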