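import Pool.Agent.Work.MP_bd3ec3_nt.SP.Stmts

/-!
# Counting pairs
-/

set_option autoImplicit false

namespace Pool.Agent.Work.MP_bd3ec3_nt.SP

namespace ICT

/-- The fibre over one `b`. -/
theorem fibre (hLN : S_LN) (e : ℕ) (a : ℤ) (b : ℤ) (F : Finset (ℤ × ℤ)) (v K : ℝ)
    (he : 0 < e) (ha : IsCoprime a (e : ℤ)) (hK : 0 ≤ K)
    (hF : ∀ p ∈ F, b ^ 2 = a ^ 3 + p.1 * a * (e : ℤ) ^ 4 + p.2 * (e : ℤ) ^ 6 ∧
      v ≤ p.1 ∧ (p.1 : ℝ) ≤ v + K) : (F.card : ℝ) ≤ K / (e : ℝ) ^ 2 + 1 := by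
  have he' : (e : ℤ) ≠ 0 := by exact_mod_cast he.ne'
  rcases F.eq_empty_or_nonempty with h0 | ⟨p0, hp0⟩
  · rw [h0, Finset.card_empty, Nat.cast_zero]
    positivity
  have h1 := hLN (e ^ 2) a (p0.1 * a) v K (by positivity)
    (by rw [Nat.cast_pow]; exact ha.pow_right) hK
  have hc : ((e ^ 2 : ℕ) : ℝ) = (e : ℝ) ^ 2 := Nat.cast_pow e 2
  rw [hc] at h1
  refine le_trans ?_ h1
  have hfin : {A : ℤ | v ≤ A ∧ (A : ℝ) ≤ v + K ∧ ((e ^ 2 : ℕ) : ℤ) ∣ A * a - p0.1 * a}.Finite := by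
    apply (Set.finite_Icc ⌈v⌉ ⌊v + K⌋).subset
    intro A hA
    exact ⟨Int.ceil_le.mpr hA.1, Int.le_floor.mpr hA.2.1⟩
  have hinj : Set.InjOn Prod.fst (F : Set (ℤ × ℤ)) := by
    intro p hp q hq hpq
    have h2 := (hF p hp).1
    have h3 := (hF q hq).1
    have h4 : (p.2 - q.2) * (e : ℤ) ^ 6 = 0 := by
      have h5 : p.1 * a * (e : ℤ) ^ 4 = q.1 * a * (e : ℤ) ^ 4 := by rw [hpq]
      linear_combination h3 - h2 - h5
    have h5 : p.2 - q.2 = 0 := (mul_eq_zero.mp h4).resolve_right (pow_ne_zero _ he')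
    exact Prod.ext hpq (by linarith)
  have h6 : ((F.image Prod.fst : Finset ℤ) : Set ℤ) ⊆
      {A : ℤ | v ≤ A ∧ (A : ℝ) ≤ v + K ∧ ((e ^ 2 : ℕ) : ℤ) ∣ A * a - p0.1 * a} := by
    intro A hA
    rw [Finset.mem_coe, Finset.mem_image] at hA
    obtain ⟨p, hp, rfl⟩ := hA
    obtain ⟨h2, h3, h4⟩ := hF p hp
    refine ⟨h3, h4, ?_⟩
    have h5 := (hF p0 hp0).1
    have h6 : (p.1 * a - p0.1 * a - (p0.2 - p.2) * (e : ℤ) ^ 2) * (e : ℤ) ^ 4 = 0 := by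
      linear_combination h5 - h2
    have h7 := (mul_eq_zero.mp h6).resolve_right (pow_ne_zero _ he')
    refine ⟨p0.2 - p.2, ?_⟩
    rw [Nat.cast_pow]
    linarith
  have h7 := Set.ncard_le_ncard h6 hfin
  rw [Set.ncard_coe_finset, Finset.card_image_of_injOn hinj] at h7
  exact Nat.cast_le.mpr h7

end ICT

open ICT in
theorem pr_CT : S_CT := by
  intro hLN e a S T v K he ha hK hS hb
  classical
  choose! bb hT hbb using hb
  have h1 : S.ncard = hS.toFinset.card := Set.ncard_eq_toFinset_card S hS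
  have h2 : hS.toFinset.card = ∑ b ∈ T, (hS.toFinset.filter fun p => bb p = b).card :=
    Finset.card_eq_sum_card_fiberwise fun p hp => hT p (by simpa using hp)
  rw [h1, h2, Nat.cast_sum]
  have h3 : ∀ b ∈ T, (((hS.toFinset.filter fun p => bb p = b).card : ℕ) : ℝ) ≤
      K / (e : ℝ) ^ 2 + 1 := by
    intro b _
    apply fibre hLN e a b _ (v b) K he ha hK
    intro p hp
    rw [Finset.mem_filter, Set.Finite.mem_toFinset] at hp
    obtain ⟨hpS, rfl⟩ := hp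
    exact hbb p hpS
  refine (Finset.sum_le_sum h3).trans ?_
  rw [Finset.sum_const, nsmul_eq_mul]

end Pool.Agent.Work.MP_bd3ec3_nt.SP
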