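import Mathlib

/-!
# MP_bd3ec3_nt, block SP (captain helper7): curves with a small rational point

Watkins' count of the even curves of rank at least 2 is not affected by the curves which have a rational point of
small height: they are `O(H^(19/24 - η))`, for every bound of the height (of `x`) below `H^(13/24)`. No property of the root number
is used. `X = H^(1/6)`. The docstring of every `S_XX` is a complete proof. Item `XX`: file `SP/I_XX.lean`, theorem `pr_XX`.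
-/

set_option autoImplicit false

namespace Pool.Agent.Work.MP_bd3ec3_nt.SP

open Filter Topology

/-! ## The objects of the problem -/

/-- The pairs `(A, B)` of the problem. -/
def Cur (A B : ℤ) : Prop :=
  4 * A ^ 3 + 27 * B ^ 2 ≠ 0 ∧ ∀ p : ℕ, p.Prime → ¬ ((p : ℤ) ^ 4 ∣ A ∧ (p : ℤ) ^ 6 ∣ B)

/-- The height. -/
noncomputable def ht (A B : ℤ) : ℝ := max |4 * (A : ℝ) ^ 3| |27 * (B : ℝ) ^ 2|

/-- The curve `y² = x³ + A x + B` over `ℚ`. -/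
def W (A B : ℤ) : WeierstrassCurve ℚ := ⟨0, 0, 0, A, B⟩

/-- The Mordell-Weil rank is at least `2`: two independent rational points. -/
def Rk2 (A B : ℤ) : Prop := ∃ P Q : (W A B).toAffine.Point, LinearIndependent ℤ ![P, Q]

/-- The curves counted by `N(H)` (`w` is the root number). -/
def SN (w : ℤ → ℤ → ℤ) (H : ℝ) : Set (ℤ × ℤ) :=
  {p | Cur p.1 p.2 ∧ ht p.1 p.2 ≤ H ∧ w p.1 p.2 = 1 ∧ Rk2 p.1 p.2}

/-- There is an affine rational point `(x, y)` with `max(|num x|, H^(1/6) den x) ≤ H^κ`. -/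
def Sm (κ H : ℝ) (A B : ℤ) : Prop :=
  ∃ x y : ℚ, y ^ 2 = x ^ 3 + A * x + B ∧ |(x.num : ℝ)| ≤ H ^ κ ∧ (x.den : ℝ) * H ^ ((1 : ℝ) / 6) ≤ H ^ κ

/-- The curves counted by `N(H)` without such points. -/
def SS (w : ℤ → ℤ → ℤ) (κ H : ℝ) : Set (ℤ × ℤ) := {p | p ∈ SN w H ∧ ¬ Sm κ H p.1 p.2}

/-- The conjectured order. -/
noncomputable def ord (H : ℝ) : ℝ := H ^ ((19 : ℝ) / 24) * Real.log H ^ ((3 : ℝ) / 8)

/-! ## Congruences -/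

/-- [BR] (MEDIUM) Square roots in an interval. PROOF. If the set is empty there is nothing to prove (the right side is positive); otherwise fix `b₀` in
it. For `b` in it let `g(b) = gcd(b - b₀, n)`, a divisor of `n`. `n ∣ (b - b₀)(b + b₀)`, so `n / g ∣ b + b₀` (`(b - b₀)/g` and `n/g` are coprime).
If `g(b) = g(b') = g` then `g ∣ b - b'` and `n/g ∣ b - b'`, so `q = lcm(g, n/g) ∣ b - b'`. `d = gcd(g, n/g)` divides `b - b₀` and `b + b₀`, so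
`d ∣ 2 b₀`; `b₀² ≡ c` is coprime to `n`, so `d` is coprime to `b₀` and `d ∣ 2`; `q = n / d ≥ n / 2`. An interval of length `L` contains at most
`L / q + 1 ≤ 2 L / n + 1` elements of a residue class modulo `q`. Sum over the divisors `g` (`Set.ncard` of a union, or `Finset.card_eq_sum_card_fiberwise`). -/
def S_BR : Prop := ∀ (n : ℕ) (c : ℤ) (u L : ℝ), 0 < n → IsCoprime c (n : ℤ) → 0 ≤ L →
  (({b : ℤ | u ≤ b ∧ (b : ℝ) ≤ u + L ∧ (n : ℤ) ∣ b ^ 2 - c}.ncard : ℕ) : ℝ) ≤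
    (n.divisors.card : ℝ) * (2 * L / n + 1)

/-- [LN] (EASY) Linear congruence in an interval. PROOF. Two solutions differ by a multiple of `m` (`m ∣ (A - A') a`, `a` coprime to `m`); an interval of
length `K` contains at most `K / m + 1` elements of a residue class modulo `m`. -/
def S_LN : Prop := ∀ (m : ℕ) (a c : ℤ) (v K : ℝ), 0 < m → IsCoprime a (m : ℤ) → 0 ≤ K →
  (({A : ℤ | v ≤ A ∧ (A : ℝ) ≤ v + K ∧ (m : ℤ) ∣ A * a - c}.ncard : ℕ) : ℝ) ≤ K / m + 1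

/-- [DB] (EASY) The divisor bound: `Pool/Agent/Work/MP_e0aece_nt/DivisorBound.lean` (or any other file of the pool). -/
def S_DB : Prop := ∀ ε : ℝ, 0 < ε → ∃ C : ℝ, 0 < C ∧ ∀ n : ℕ, 0 < n → (n.divisors.card : ℝ) ≤ C * (n : ℝ) ^ ε

/-! ## The curves with a given abscissa -/

/-- The pairs in the box for which `a / e²` is the abscissa of a rational point. -/
def E (X : ℝ) (e : ℕ) (a : ℤ) : Set (ℤ × ℤ) :=
  {p | |(p.1 : ℝ)| ≤ X ^ 2 ∧ |(p.2 : ℝ)| ≤ X ^ 3 ∧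
    ∃ b : ℤ, b ^ 2 = a ^ 3 + p.1 * a * (e : ℤ) ^ 4 + p.2 * (e : ℤ) ^ 6}

/-- [CT] (EASY-MEDIUM) Counting pairs. PROOF. A pair `(A, B)` of `S` is determined by `(b, A)` as `B e⁶ = b² - a³ - A a e⁴`; so
`S.ncard ≤ #{(b, A)}` (choose `b` for every element of `S`; the map `(A, B) ↦ (b, A)` is injective on `S`). The `b` lie in the finite set `T`. For fixed `b` in `T`
which occurs: `b² - a³ = e⁴ c'` and `c' = A a + B e²`, so `e² ∣ A a - c'`, and `A` is in `[v b, v b + K]`: S_LN with `m = e²`. -/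
def S_CT : Prop := S_LN → ∀ (e : ℕ) (a : ℤ) (S : Set (ℤ × ℤ)) (T : Finset ℤ) (v : ℤ → ℝ) (K : ℝ),
  0 < e → IsCoprime a (e : ℤ) → 0 ≤ K → S.Finite →
  (∀ p ∈ S, ∃ b ∈ T, b ^ 2 = a ^ 3 + p.1 * a * (e : ℤ) ^ 4 + p.2 * (e : ℤ) ^ 6 ∧
    v b ≤ p.1 ∧ (p.1 : ℝ) ≤ v b + K) →
  (S.ncard : ℝ) ≤ (T.card : ℝ) * (K / (e : ℝ) ^ 2 + 1)

/-- [E1] (MEDIUM, use S_BR, S_LN, S_CT) Abscissas of moderate size. PROOF. `b² ≤ |a|³ + X² |a| e⁴ + X³ e⁶ ≤ 69 e⁶ X³`, so `|b| ≤ 9 e³ X^(3/2)`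
(`(e³ X^(3/2))² = e⁶ X³`), and `e⁴ ∣ b² - a³`. S_BR with `n = e⁴`, `c = a³`, `u = -9 e³ X^(3/2)`, `L = 18 e³ X^(3/2)`: the number of the `b` is at most
`d(e⁴) (36 X^(3/2) / e + 1)`. `A` is in `[-X², X²]`: S_CT with `K = 2 X²`. (`E` is finite: it lies in a box.) -/
def S_E1 : Prop := S_BR → S_LN → S_CT → ∀ (X : ℝ) (e : ℕ) (a : ℤ), 1 ≤ X → 0 < e → IsCoprime a (e : ℤ) →
  |(a : ℝ)| ≤ 4 * (e : ℝ) ^ 2 * X →
  ((E X e a).ncard : ℝ) ≤ ((e ^ 4).divisors.card : ℝ) * (36 * X ^ ((3 : ℝ) / 2) / e + 1) *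
    (2 * X ^ 2 / (e : ℝ) ^ 2 + 1)

/-- [E2] (MEDIUM, use S_BR, S_LN, S_CT) Large abscissas. PROOF. `e² X < |a| / 4`. If `a < 0` then
`a³ + A a e⁴ + B e⁶ ≤ -|a|³ + X² |a| e⁴ + X³ e⁶ < 0`, so `E = ∅`. Let `a > 0`. `|b² - a³| ≤ X² a e⁴ + X³ e⁶ ≤ 2 X² a e⁴ ≤ a³ / 8`, so `b ≠ 0` and
`||b| - a^(3/2)| = |b² - a³| / (|b| + a^(3/2)) ≤ 2 X² a e⁴ / a^(3/2) = 2 X² e⁴ / √a`. S_BR for `b > 0` and, after `b ↦ -b`, for `b < 0`, with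
`n = e⁴`, `c = a³`, `L = 4 X² e⁴ / √a`: at most `2 d(e⁴) (8 X² / √a + 1)` values of `b`. For a given `b`: `A a e⁴ = b² - a³ - B e⁶` with `|B| ≤ X³`, so `A` is in an
interval of length `K = 2 X³ e² / a`: S_CT. -/
def S_E2 : Prop := S_BR → S_LN → S_CT → ∀ (X : ℝ) (e : ℕ) (a : ℤ), 1 ≤ X → 0 < e → IsCoprime a (e : ℤ) →
  4 * (e : ℝ) ^ 2 * X < |(a : ℝ)| →
  (a < 0 → E X e a = ∅) ∧
  ((E X e a).ncard : ℝ) ≤ 2 * ((e ^ 4).divisors.card : ℝ) * (8 * X ^ 2 / √|(a : ℝ)| + 1) *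
    (2 * X ^ 3 / |(a : ℝ)| + 1)

/-! ## Sums -/

/-- The pairs in the box which have a point with denominator `e²` and numerator at most `M`. -/
def Fe (X M : ℝ) (e : ℕ) : Set (ℤ × ℤ) := {p | ∃ a : ℤ, IsCoprime a (e : ℤ) ∧ |(a : ℝ)| ≤ M ∧ p ∈ E X e a}

/-- [SA] (MEDIUM, use S_E1, S_E2 in the form of the hypotheses) The sum over `a`. PROOF. `D = d(e⁴)`. `e ≤ X^(3/2)` because `e² ≤ M / X ≤ X^(9/4)`. For `|a| ≤ 4 e² X` (at most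
`8 e² X + 1 ≤ 9 e² X` numbers) the bound is at most `D (37 X^(3/2) / e) (2 X² / e² + 1)`, together `333 D (2 X^(9/2) / e + e X^(5/2))`. For
`4 e² X < a ≤ M ≤ X⁴` (negative `a` do not occur) we have `1 ≤ X² / √a`, so the bound is at most `18 D (X² / √a) (2 X³ / a + 1)`
`≤ 18 D (X⁵ / (e √X) (1 / a) + X² / √a)` (`1 / √a ≤ 1 / (2 e √X)`). `∑_(a ≤ M) 1 / a ≤ 1 + log M`, `∑_(a ≤ M) 1 / √a ≤ 2 √M`. The total is at most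
`D (684 X^(9/2) (1 + log M) / e + 333 e X^(5/2) + 36 X² √M)`. (Union bound for `ncard`; the `a` lie in a finite interval.) -/
def S_SA : Prop :=
  (∀ (X : ℝ) (e : ℕ) (a : ℤ), 1 ≤ X → 0 < e → IsCoprime a (e : ℤ) → |(a : ℝ)| ≤ 4 * (e : ℝ) ^ 2 * X →
    ((E X e a).ncard : ℝ) ≤ ((e ^ 4).divisors.card : ℝ) * (36 * X ^ ((3 : ℝ) / 2) / e + 1) *
      (2 * X ^ 2 / (e : ℝ) ^ 2 + 1)) →
  (∀ (X : ℝ) (e : ℕ) (a : ℤ), 1 ≤ X → 0 < e → IsCoprime a (e : ℤ) → 4 * (e : ℝ) ^ 2 * X < |(a : ℝ)| →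
    (a < 0 → E X e a = ∅) ∧
    ((E X e a).ncard : ℝ) ≤ 2 * ((e ^ 4).divisors.card : ℝ) * (8 * X ^ 2 / √|(a : ℝ)| + 1) *
      (2 * X ^ 3 / |(a : ℝ)| + 1)) →
  ∀ (X M : ℝ) (e : ℕ), 1 ≤ X → 0 < e → (e : ℝ) ^ 2 * X ≤ M → M ≤ X ^ ((13 : ℝ) / 4) →
  ((Fe X M e).ncard : ℝ) ≤ ((e ^ 4).divisors.card : ℝ) *
    (700 * X ^ ((9 : ℝ) / 2) * (1 + Real.log M) / e + 333 * e * X ^ ((5 : ℝ) / 2) + 36 * X ^ 2 * √M)

/-- The pairs in the box with a small point. -/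
def TT (X M : ℝ) : Set (ℤ × ℤ) := {p | ∃ e : ℕ, 0 < e ∧ (e : ℝ) ^ 2 * X ≤ M ∧ p ∈ Fe X M e}

/-- [SE] (MEDIUM, the hypotheses are the conclusion of S_SA and S_DB) The sum over `e`. PROOF. If `M < X` then `TT = ∅`. Let `Y = √(M / X) ≤ X^(9/8)`; `e ≤ Y`.
`d(e⁴) ≤ C' (e⁴)^(ε/18) ≤ C' X^(ε/4)` and `(1 + log M)² ≤ C'' X^(ε/4)` (`M ≤ X^(13/4)`). `∑_(e ≤ Y) 1 / e ≤ 1 + log Y ≤ 1 + log M`, `∑_(e ≤ Y) e ≤ Y² = M / X` (at most `Y` terms, each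
at most `Y`), `∑_(e ≤ Y) 1 ≤ Y`: the total is at most
`C' X^(ε/4) (700 X^(9/2) (1 + log M)² + 333 X^(3/2) M + 36 X² √M √(M / X))`, and `X² √M √(M / X) = X^(3/2) M`. -/
def S_SE : Prop :=
  (∀ (X M : ℝ) (e : ℕ), 1 ≤ X → 0 < e → (e : ℝ) ^ 2 * X ≤ M → M ≤ X ^ ((13 : ℝ) / 4) →
    ((Fe X M e).ncard : ℝ) ≤ ((e ^ 4).divisors.card : ℝ) *
      (700 * X ^ ((9 : ℝ) / 2) * (1 + Real.log M) / e + 333 * e * X ^ ((5 : ℝ) / 2) + 36 * X ^ 2 * √M)) →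
  S_DB → ∀ ε : ℝ, 0 < ε → ∃ C : ℝ, 0 < C ∧ ∀ X M : ℝ, 1 ≤ X → 0 ≤ M → M ≤ X ^ ((13 : ℝ) / 4) →
    ((TT X M).ncard : ℝ) ≤ C * X ^ ε * (X ^ ((9 : ℝ) / 2) + X ^ ((3 : ℝ) / 2) * M)

/-! ## Rational points and the end -/

/-- [RT] (EASY-MEDIUM) Rational points. PROOF. `x = n / d` in lowest terms, `m = n³ + A n d² + B d³`, coprime to `d`. `(y d²)² = d m`, so `y d²` is an integer `z` (a rational number
whose square is an integer), `z² = d m` with `d > 0`, `m ≥ 0` coprime: `d = e²` and `m = b²` (`Nat.sq_of_coprime` or `Int.sq_of_gcd_eq_one`). -/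
def S_RT : Prop := ∀ (A B : ℤ) (x y : ℚ), y ^ 2 = x ^ 3 + A * x + B →
  ∃ (e : ℕ) (b : ℤ), 0 < e ∧ x.den = e ^ 2 ∧ IsCoprime x.num (e : ℤ) ∧
    b ^ 2 = x.num ^ 3 + A * x.num * (e : ℤ) ^ 4 + B * (e : ℤ) ^ 6

/-- [MN] (EASY-MEDIUM, the hypotheses are the conclusion of S_SE and S_RT) The number of the curves with a small point. PROOF. `X = H^(1/6) ≥ 1`, `M = H^κ = X^(6 κ) ≤ X^(13/4)`. `ht ≤ H` gives
`|A|³ ≤ H = X⁶` and `B² ≤ H = X⁶`, so `|A| ≤ X²`, `|B| ≤ X³`. By S_RT every pair of the set is in `TT X M`. With `η' = min(1/8, (13/4 - 6 κ)/2)` and `ε = η'`: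
`X^ε (X^(9/2) + X^(3/2 + 6 κ)) ≤ 2 X^(19/4 - η')`, as `9/2 + ε ≤ 19/4 - η'` and `3/2 + 6 κ + ε ≤ 19/4 - η'`; `η = η' / 6`. -/
def S_MN : Prop :=
  (∀ ε : ℝ, 0 < ε → ∃ C : ℝ, 0 < C ∧ ∀ X M : ℝ, 1 ≤ X → 0 ≤ M → M ≤ X ^ ((13 : ℝ) / 4) →
    ((TT X M).ncard : ℝ) ≤ C * X ^ ε * (X ^ ((9 : ℝ) / 2) + X ^ ((3 : ℝ) / 2) * M)) →
  S_RT → ∀ κ : ℝ, κ < 13 / 24 → ∃ η > (0 : ℝ), ∃ C > (0 : ℝ), ∀ H : ℝ, 1 ≤ H →
    (({p : ℤ × ℤ | ht p.1 p.2 ≤ H ∧ Sm κ H p.1 p.2}.ncard : ℕ) : ℝ) ≤ C * H ^ ((19 : ℝ) / 24 - η)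

/-- [FN] (EASY-MEDIUM, the hypothesis is the conclusion of S_MN) The question. PROOF. `SN w H` is finite (box), `SS ⊆ SN`, and `SN w H \ SS w κ H` is contained in the set of the hypothesis. So
`0 ≤ #SN - #SS ≤ C H^(19/24 - η)`; divided by `ord H` this tends to `0` (for `H ≥ e` it is at most `C H^(-η)`). -/
def S_FN : Prop :=
  (∀ κ : ℝ, κ < 13 / 24 → ∃ η > (0 : ℝ), ∃ C > (0 : ℝ), ∀ H : ℝ, 1 ≤ H →
    (({p : ℤ × ℤ | ht p.1 p.2 ≤ H ∧ Sm κ H p.1 p.2}.ncard : ℕ) : ℝ) ≤ C * H ^ ((19 : ℝ) / 24 - η)) →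
  ∀ (w : ℤ → ℤ → ℤ) (κ : ℝ), κ < 13 / 24 →
    (∃ η > (0 : ℝ), ∃ C > (0 : ℝ), ∀ H : ℝ, 1 ≤ H →
      ((SS w κ H).ncard : ℝ) ≤ (SN w H).ncard ∧
      ((SN w H).ncard : ℝ) ≤ (SS w κ H).ncard + C * H ^ ((19 : ℝ) / 24 - η)) ∧
    Tendsto (fun H : ℝ => ((SN w H).ncard : ℝ) / ord H - ((SS w κ H).ncard : ℝ) / ord H) atTop (𝓝 0) ∧
    ∀ c : ℝ, Tendsto (fun H : ℝ => ((SN w H).ncard : ℝ) / ord H) atTop (𝓝 c) ↔
      Tendsto (fun H : ℝ => ((SS w κ H).ncard : ℝ) / ord H) atTop (𝓝 c)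

end Pool.Agent.Work.MP_bd3ec3_nt.SP
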